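import Pool.Agent.W732.Ud.Stm

set_option autoImplicit false

open Metric Set Filter Topology Complex
open scoped ContDiff

namespace Pool.Agent.W721.Ud.G1
open Pool.Agent.W732.Ud
open Pool.Agent.W732.Cor (V mv tau)

/-- second order Taylor expansion at a point -/
lemma taylor2 {E : Type} [NormedAddCommGroup E] [NormedSpace ℝ E] (f : E → ℝ) (p : E)
    (hf : ContDiffAt ℝ 2 f p) (τ : ℝ) (hτ : 0 < τ) :
    ∃ r : ℝ, 0 < r ∧ ∀ h : E, ‖h‖ < r →
      |f (p + h) - f p - fderiv ℝ f p h - (1 / 2) * fderiv ℝ (fderiv ℝ f) p h h| ≤ τ * ‖h‖ ^ 2 := by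
  have hsymm : IsSymmSndFDerivAt ℝ f p := hf.isSymmSndFDerivAt (by simp)
  have hd2 : HasFDerivAt (fderiv ℝ f) (fderiv ℝ (fderiv ℝ f) p) p :=
    ((hf.fderiv_right (m := 1) (by norm_num)).differentiableAt (by norm_num)).hasFDerivAt
  set B := fderiv ℝ (fderiv ℝ f) p with hB
  have hev1 : ∀ᶠ x in 𝓝 p, DifferentiableAt ℝ f x := by
    filter_upwards [hf.eventually (by decide)] with x hx
    exact hx.differentiableAt (by norm_num)
  have hev2 : ∀ᶠ x in 𝓝 p, ‖fderiv ℝ f x - fderiv ℝ f p - B (x - p)‖ ≤ τ * ‖x - p‖ :=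
    hd2.isLittleO.def hτ
  obtain ⟨r, hr, hball⟩ := Metric.eventually_nhds_iff.1 (hev1.and hev2)
  refine ⟨r, hr, ?_⟩
  intro h hh
  have hder : ∀ x ∈ closedBall (0 : E) ‖h‖, HasFDerivWithinAt
      (fun x => f (p + x) - f p - fderiv ℝ f p x - (1 / 2) * B x x)
      (fderiv ℝ f (p + x) - fderiv ℝ f p - B x) (closedBall (0 : E) ‖h‖) x := by
    intro x hx
    rw [mem_closedBall_zero_iff] at hx
    have hpx : dist (p + x) p < r := by
      rw [dist_eq_norm, add_sub_cancel_left]; linarith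
    have h1 : HasFDerivAt (fun x => f (p + x)) (fderiv ℝ f (p + x)) x := by
      have := (hball hpx).1.hasFDerivAt
      have h2 : HasFDerivAt (fun x => p + x) (ContinuousLinearMap.id ℝ E) x :=
        (hasFDerivAt_id x).const_add p
      have h8 := this.comp x h2
      rw [ContinuousLinearMap.comp_id] at h8
      exact h8
    have h3 : HasFDerivAt (fun x => B x x) ((B x) + (B.flip x)) x := by
      have h4 : HasFDerivAt (fun x => B x) B x := B.hasFDerivAt
      have h5 := h4.clm_apply (hasFDerivAt_id x)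
      refine h5.congr_fderiv ?_
      ext z
      simp
    have h6 : HasFDerivAt (fun x => (1 / 2) * B x x) ((1 / 2 : ℝ) • ((B x) + (B.flip x))) x :=
      h3.const_mul (1 / 2 : ℝ)
    have h7 := ((h1.sub_const (f p)).sub (fderiv ℝ f p).hasFDerivAt).sub h6
    refine (h7.congr_fderiv ?_).hasFDerivWithinAt
    ext z
    have hs := hsymm x z
    simp only [sub_apply, smul_apply,
      add_apply, ContinuousLinearMap.flip_apply, smul_eq_mul]
    rw [← hB] at hs
    rw [← hs]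
    ring
  have hbound : ∀ x ∈ closedBall (0 : E) ‖h‖,
      ‖fderiv ℝ f (p + x) - fderiv ℝ f p - B x‖ ≤ τ * ‖h‖ := by
    intro x hx
    rw [mem_closedBall_zero_iff] at hx
    have hpx : dist (p + x) p < r := by
      rw [dist_eq_norm, add_sub_cancel_left]; linarith
    have := (hball hpx).2
    rw [add_sub_cancel_left] at this
    exact this.trans (mul_le_mul_of_nonneg_left hx hτ.le)
  have hmv := (convex_closedBall (0 : E) ‖h‖).norm_image_sub_le_of_norm_hasFDerivWithin_le hder hbound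
    (mem_closedBall_self (norm_nonneg h)) (mem_closedBall_zero_iff.2 le_rfl)
  simp only [sub_zero, add_zero, map_zero, sub_self, mul_zero] at hmv
  rw [Real.norm_eq_abs] at hmv
  calc _ ≤ τ * ‖h‖ * ‖h‖ := hmv
    _ = τ * ‖h‖ ^ 2 := by ring

variable {m : ℕ}

/-- the real part of the inner product with `e` -/
noncomputable def LL (e : V m) : V m →L[ℝ] ℝ :=
  Complex.reCLM.comp ((innerSL ℂ e).restrictScalars ℝ)

lemma LL_apply (e h : V m) : LL e h = (inner ℂ e h : ℂ).re := rfl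

lemma inner_ee (e : V m) (he : ‖e‖ = 1) : (inner ℂ e e : ℂ) = 1 := by
  rw [inner_self_eq_norm_sq_to_K, he]; simp

/-- norm of `a e + y` -/
lemma nsq (e y : V m) (a : ℂ) (he : ‖e‖ = 1) (hy : (inner ℂ e y : ℂ) = 0) :
    ‖a • e + y‖ ^ 2 = ‖a‖ ^ 2 + ‖y‖ ^ 2 := by
  have := norm_add_sq (𝕜 := ℂ) (a • e) y
  rw [inner_smul_left, hy, mul_zero, norm_smul, he, mul_one] at this
  simpa using this

/-- first order part: the derivative is a positive multiple of `LL e` -/
lemma first (e : V m) (R : ℝ) (D : Set (V m)) (ρ : V m → ℝ) (he : ‖e‖ = 1) (hR : 0 < R)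
    (hD : D ⊆ ball 0 R) (hρ : ContDiffAt ℝ 2 ρ ((R : ℂ) • e)) (hne : fderiv ℝ ρ ((R : ℂ) • e) ≠ 0)
    (hcl : (R : ℂ) • e ∈ closure D) (hev : ∀ᶠ z in 𝓝 ((R : ℂ) • e), z ∈ D ↔ ρ z < 0) :
    ρ ((R : ℂ) • e) = 0 ∧ ∃ c : ℝ, 0 < c ∧ ∀ h, fderiv ℝ ρ ((R : ℂ) • e) h = c * LL e h := by
  set p : V m := (R : ℂ) • e with hp
  have hpn : ‖p‖ = R := by rw [hp, norm_smul, he, mul_one]; simp [abs_of_pos hR]
  have hpD : p ∉ D := by
    intro h
    have := mem_ball_zero_iff.1 (hD h)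
    rw [hpn] at this
    exact lt_irrefl _ this
  have hge : 0 ≤ ρ p := by
    by_contra hcon
    exact hpD (hev.self_of_nhds.2 (not_le.1 hcon))
  have hle : ρ p ≤ 0 := by
    have hfr : ∃ᶠ z in 𝓝 p, z ∈ D := mem_closure_iff_frequently.1 hcl
    have hfr2 : ∃ᶠ z in 𝓝 p, ρ z ≤ 0 := (hfr.and_eventually hev).mono fun z hz => (hz.2.1 hz.1).le
    exact le_of_tendsto_of_frequently hρ.continuousAt hfr2
  have h0 : ρ p = 0 := le_antisymm hle hge
  refine ⟨h0, ?_⟩
  have hdiff : HasFDerivAt ρ (fderiv ℝ ρ p) p := (hρ.differentiableAt (by norm_num)).hasFDerivAt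
  have key : ∀ h, fderiv ℝ ρ p h < 0 → LL e h < 0 := by
    intro h hh
    have hline : HasDerivAt (fun t : ℝ => p + t • h) h 0 := by
      have := ((hasDerivAt_id (0 : ℝ)).smul_const h).const_add p
      simpa using this
    have hd : HasDerivAt (fun t : ℝ => ρ (p + t • h)) (fderiv ℝ ρ p h) 0 := by
      have h1 : HasFDerivAt ρ (fderiv ℝ ρ p) (p + (0 : ℝ) • h) := by simpa using hdiff
      exact h1.comp_hasDerivAt (0 : ℝ) hline
    have hslope := hd.tendsto_slope_zero_right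
    have hneg : ∀ᶠ t in 𝓝[>] (0 : ℝ), t⁻¹ • (ρ (p + (0 + t) • h) - ρ (p + (0 : ℝ) • h)) < 0 :=
      hslope.eventually_lt_const hh
    have hc : Tendsto (fun t : ℝ => p + t • h) (𝓝[>] 0) (𝓝 p) := by
      have : ContinuousAt (fun t : ℝ => p + t • h) 0 := hline.continuousAt
      have h2 : Tendsto (fun t : ℝ => p + t • h) (𝓝 0) (𝓝 p) := by simpa [ContinuousAt] using this
      exact h2.mono_left nhdsWithin_le_nhds
    obtain ⟨t, ⟨ht1, ht2⟩, ht3⟩ := ((hneg.and (hc.eventually hev)).and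
      (eventually_mem_nhdsWithin (a := (0 : ℝ)) (s := Ioi 0))).exists
    have ht0 : (0 : ℝ) < t := ht3
    have hρt : ρ (p + t • h) < 0 := by
      simp only [zero_add, zero_smul, add_zero, h0, sub_zero, smul_eq_mul] at ht1
      by_contra hcon
      have : 0 ≤ t⁻¹ * ρ (p + t • h) := mul_nonneg (inv_pos.2 ht0).le (not_lt.1 hcon)
      linarith
    have hnorm := mem_ball_zero_iff.1 (hD (ht2.2 hρt))
    have hsq : ‖p + t • h‖ ^ 2 < R ^ 2 := by
      exact pow_lt_pow_left₀ hnorm (norm_nonneg _) (by norm_num)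
    have hexp := norm_add_sq (𝕜 := ℂ) p (t • h)
    have hin : RCLike.re (inner ℂ p (t • h) : ℂ) = R * (t * LL e h) := by
      rw [hp, inner_smul_left, Complex.conj_ofReal, ← Complex.coe_smul, inner_smul_right, LL_apply]
      simp
    rw [hin, hpn, norm_smul, Real.norm_eq_abs, abs_of_pos ht0] at hexp
    rw [hexp] at hsq
    by_contra hcon
    have h5 : 0 ≤ R * (t * LL e h) := mul_nonneg hR.le (mul_nonneg ht0.le (not_lt.1 hcon))
    nlinarith [sq_nonneg (t * ‖h‖)]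
  have hLe : LL e e = 1 := by rw [LL_apply, inner_ee e he]; simp
  have hker : ∀ h, LL e h = 0 → fderiv ℝ ρ p h = 0 := by
    intro h hh
    by_contra hcon
    rcases lt_or_gt_of_ne hcon with h1 | h1
    · have := key h h1; linarith
    · have := key (-h) (by rw [map_neg]; linarith)
      rw [map_neg] at this
      linarith
  refine ⟨fderiv ℝ ρ p e, ?_, ?_⟩
  · rcases lt_trichotomy (fderiv ℝ ρ p e) 0 with h1 | h1 | h1
    · have := key e h1; linarith
    · exfalso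
      apply hne
      ext h
      have h2 := hker (h - (LL e h) • e) (by rw [map_sub, map_smul, hLe]; simp)
      rw [map_sub, map_smul, h1] at h2
      simpa using h2
    · exact h1
  · intro h
    have h2 := hker (h - (LL e h) • e) (by rw [map_sub, map_smul, hLe]; simp)
    rw [map_sub, map_smul, smul_eq_mul] at h2
    linarith

/-- expansion in the coordinates `w`, `y` -/
lemma expa (e : V m) (R c : ℝ) (ρ : V m → ℝ) (he : ‖e‖ = 1)
    (hρ : ContDiffAt ℝ 2 ρ ((R : ℂ) • e)) (h0 : ρ ((R : ℂ) • e) = 0) (hc : 0 < c)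
    (hL : ∀ h, fderiv ℝ ρ ((R : ℂ) • e) h = c * LL e h) (b : V m →L[ℝ] V m →L[ℝ] ℝ)
    (hb : b = (1 / (2 * c)) • fderiv ℝ (fderiv ℝ ρ) ((R : ℂ) • e)) (hbs : ∀ x y, b x y = b y x)
    (τ : ℝ) (hτ : 0 < τ) :
    ∃ r : ℝ, 0 < r ∧ ∀ (y : V m) (w : ℂ), (inner ℂ e y : ℂ) = 0 → ‖y‖ < r → ‖w‖ < r →
      |ρ (((R : ℂ) - w) • e + y) / c + w.re
        - b (y - ((w.im : ℂ) * I) • e) (y - ((w.im : ℂ) * I) • e)|
        ≤ τ * |w.re| + τ * (‖y‖ ^ 2 + w.im ^ 2) := by
  set K : ℝ := ‖b‖ with hK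
  have hK0 : 0 ≤ K := ContinuousLinearMap.opNorm_nonneg b
  obtain ⟨r1, hr1, hT⟩ := taylor2 ρ _ hρ (c * min τ 1) (mul_pos hc (lt_min hτ one_pos))
  set τ1 : ℝ := min τ 1 with hτ1
  have hτ1τ : τ1 ≤ τ := min_le_left _ _
  have hτ11 : τ1 ≤ 1 := min_le_right _ _
  have hτ10 : 0 < τ1 := lt_min hτ one_pos
  refine ⟨min (r1 / 2) (τ / (5 * K + 1)), lt_min (by linarith) (by positivity), ?_⟩
  intro y w hy hyr hwr
  have hy1 := lt_of_lt_of_le hyr (min_le_left _ _)
  have hw1 := lt_of_lt_of_le hwr (min_le_left _ _)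
  have hy2 := lt_of_lt_of_le hyr (min_le_right _ _)
  have hw2 := lt_of_lt_of_le hwr (min_le_right _ _)
  set h : V m := (-w) • e + y with hh
  set h0' : V m := y - ((w.im : ℂ) * I) • e with hh0
  have hhn : ‖h‖ ^ 2 = ‖w‖ ^ 2 + ‖y‖ ^ 2 := by rw [hh, nsq e y (-w) he hy, norm_neg]
  have hh0n : ‖h0'‖ ^ 2 = ‖y‖ ^ 2 + w.im ^ 2 := by
    have e1 : h0' = (-((w.im : ℂ) * I)) • e + y := by rw [hh0, neg_smul]; abel
    rw [e1, nsq e y _ he hy, norm_neg, norm_mul, Complex.norm_I, mul_one, Complex.norm_real,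
      Real.norm_eq_abs, sq_abs]
    ring
  have hws : ‖w‖ ^ 2 = w.re ^ 2 + w.im ^ 2 := by
    rw [Complex.sq_norm, Complex.normSq_apply]; ring
  have hhlt : ‖h‖ < r1 := by
    have : ‖h‖ ≤ ‖w‖ + ‖y‖ := by
      rw [hh]
      refine (norm_add_le _ _).trans ?_
      rw [norm_smul, he, mul_one, norm_neg]
    linarith
  have hrew : ((R : ℂ) - w) • e + y = (R : ℂ) • e + h := by
    rw [hh, sub_smul, neg_smul]; abel
  have hTh := hT h hhlt
  rw [h0, hL h, sub_zero] at hTh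
  have hLh : LL e h = -w.re := by
    rw [LL_apply, hh, inner_add_right, inner_smul_right, inner_ee e he, hy]
    simp
  have hBh : (1 / 2) * fderiv ℝ (fderiv ℝ ρ) ((R : ℂ) • e) h h = c * b h h := by
    rw [hb]
    simp only [FunLike.coe_smul, Pi.smul_apply, smul_eq_mul]
    field_simp
  rw [hBh, hLh] at hTh
  have hdec : h = h0' - (w.re) • e := by
    have : w = (w.re : ℂ) + (w.im : ℂ) * I := (Complex.re_add_im w).symm
    rw [hh, hh0]
    conv_lhs => rw [this]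
    rw [neg_add, add_smul, neg_smul, neg_smul, ← Complex.coe_smul (w.re)]
    abel
  have hbh : b h h = b h0' h0' - 2 * w.re * b h0' e + w.re ^ 2 * b e e := by
    rw [hdec]
    simp only [map_sub, map_smul, sub_apply, smul_apply, smul_eq_mul]
    rw [hbs e h0']
    ring
  have hrem : |ρ ((R : ℂ) • e + h) / c + w.re - b h h| ≤ τ1 * ‖h‖ ^ 2 := by
    have e1 : ρ ((R : ℂ) • e + h) / c + w.re - b h h
        = (ρ ((R : ℂ) • e + h) - c * -w.re - c * b h h) / c := by
      field_simp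
      ring
    rw [e1, abs_div, abs_of_pos hc, div_le_iff₀ hc]
    linarith
  have hbe : |b e e| ≤ K := by
    have := b.le_opNorm₂ e e
    rw [he, mul_one, mul_one] at this
    exact this
  have hbhe : |b h0' e| ≤ K * ‖h0'‖ := by
    have := b.le_opNorm₂ h0' e
    rw [he, mul_one] at this
    exact this
  rw [hrew]
  have e2 : ρ ((R : ℂ) • e + h) / c + w.re - b h0' h0'
      = (ρ ((R : ℂ) • e + h) / c + w.re - b h h) + (-(2 * w.re * b h0' e)) + w.re ^ 2 * b e e := by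
    rw [hbh]; ring
  rw [e2]
  have hu : |w.re| ≤ ‖w‖ := Complex.abs_re_le_norm w
  have hv : |w.im| ≤ ‖w‖ := Complex.abs_im_le_norm w
  have hh0le : ‖h0'‖ ≤ ‖y‖ + ‖w‖ := by
    rw [hh0]
    refine (norm_sub_le _ _).trans ?_
    rw [norm_smul, he, mul_one, norm_mul, Complex.norm_I, mul_one, Complex.norm_real,
      Real.norm_eq_abs]
    linarith
  have t1 : |-(2 * w.re * b h0' e)| ≤ 2 * |w.re| * (K * (‖y‖ + ‖w‖)) := by
    rw [abs_neg, abs_mul, abs_mul, abs_two]
    exact mul_le_mul_of_nonneg_left (hbhe.trans (mul_le_mul_of_nonneg_left hh0le hK0)) (by positivity)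
  have t2 : |w.re ^ 2 * b e e| ≤ |w.re| * (‖w‖ * K) := by
    rw [abs_mul, abs_of_nonneg (sq_nonneg _), ← sq_abs, sq, mul_assoc]
    exact mul_le_mul_of_nonneg_left (mul_le_mul hu hbe (abs_nonneg _) (norm_nonneg _))
      (abs_nonneg _)
  have t3 : τ1 * ‖h‖ ^ 2 ≤ |w.re| * ‖w‖ + τ * (‖y‖ ^ 2 + w.im ^ 2) := by
    rw [hhn, hws]
    have a1 : τ1 * w.re ^ 2 ≤ |w.re| * ‖w‖ := by
      rw [← sq_abs]
      have : |w.re| ^ 2 ≤ |w.re| * ‖w‖ := by
        rw [sq]; exact mul_le_mul_of_nonneg_left hu (abs_nonneg _)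
      have h3 : τ1 * |w.re| ^ 2 ≤ 1 * |w.re| ^ 2 :=
        mul_le_mul_of_nonneg_right hτ11 (sq_nonneg _)
      linarith
    have a2 : τ1 * (‖y‖ ^ 2 + w.im ^ 2) ≤ τ * (‖y‖ ^ 2 + w.im ^ 2) :=
      mul_le_mul_of_nonneg_right hτ1τ (by positivity)
    linarith
  have habs := (abs_add_le ((ρ ((R : ℂ) • e + h) / c + w.re - b h h) + (-(2 * w.re * b h0' e)))
    (w.re ^ 2 * b e e))
  have habs2 := (abs_add_le (ρ ((R : ℂ) • e + h) / c + w.re - b h h) (-(2 * w.re * b h0' e)))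
  have hq : (‖w‖ + 2 * (K * (‖y‖ + ‖w‖)) + ‖w‖ * K) ≤ τ := by
    have hd : 0 < 5 * K + 1 := by positivity
    have a1 : ‖y‖ * (5 * K + 1) < τ := by rwa [lt_div_iff₀ hd] at hy2
    have a2 : ‖w‖ * (5 * K + 1) < τ := by rwa [lt_div_iff₀ hd] at hw2
    rcases le_total ‖y‖ ‖w‖ with h1 | h1
    · have := mul_le_mul_of_nonneg_left h1 hK0
      nlinarith
    · have := mul_le_mul_of_nonneg_left h1 hK0
      nlinarith
  have hq2 := mul_le_mul_of_nonneg_left hq (abs_nonneg w.re)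
  nlinarith

theorem main : S_geo1 := by
  intro m e R D ρ he hR hDo hD hρ hne hcl hev
  obtain ⟨h0, c, hc, hL⟩ := first e R D ρ he hR hD hρ hne hcl hev
  have hsymm : IsSymmSndFDerivAt ℝ ρ ((R : ℂ) • e) := hρ.isSymmSndFDerivAt (by simp)
  set b : V m →L[ℝ] V m →L[ℝ] ℝ := (1 / (2 * c)) • fderiv ℝ (fderiv ℝ ρ) ((R : ℂ) • e) with hb
  have hbs : ∀ x y, b x y = b y x := by
    intro x y
    rw [hb]
    simp only [FunLike.coe_smul, Pi.smul_apply, smul_eq_mul]
    rw [hsymm x y]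
  have hexp := fun τ hτ => expa e R c ρ he hρ h0 hc hL b hb hbs τ hτ
  clear_value b
  obtain ⟨r0, hr0, hball⟩ := Metric.eventually_nhds_iff.1 hev
  have hmem : ∀ (y : V m) (w : ℂ), ‖y‖ < r0 / 2 → ‖w‖ < r0 / 2 →
      (((R : ℂ) - w) • e + y ∈ D ↔ ρ (((R : ℂ) - w) • e + y) < 0) := by
    intro y w hy hw
    apply hball
    rw [dist_eq_norm]
    have : ((R : ℂ) - w) • e + y - (R : ℂ) • e = (-w) • e + y := by
      rw [sub_smul, neg_smul]; abel
    rw [this]
    refine lt_of_le_of_lt (norm_add_le _ _) ?_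
    rw [norm_smul, he, mul_one, norm_neg]
    linarith
  have hnD : ∀ (y : V m) (w : ℂ), (inner ℂ e y : ℂ) = 0 → ((R : ℂ) - w) • e + y ∈ D →
      w.re ^ 2 + w.im ^ 2 + ‖y‖ ^ 2 < 2 * R * w.re := by
    intro y w hy hz
    have h1 := mem_ball_zero_iff.1 (hD hz)
    have h2 : ‖((R : ℂ) - w) • e + y‖ ^ 2 < R ^ 2 :=
      pow_lt_pow_left₀ h1 (norm_nonneg _) (by norm_num)
    rw [nsq e y _ he hy, Complex.sq_norm, Complex.normSq_apply] at h2
    simp at h2
    nlinarith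
  have hpos : ∀ (y : V m) (v : ℝ), (inner ℂ e y : ℂ) = 0 →
      (‖y‖ ^ 2 + v ^ 2) / (2 * R) ≤ b (y - ((v : ℂ) * I) • e) (y - ((v : ℂ) * I) • e) := by
    intro y v hy
    by_contra hcon
    push Not at hcon
    set S := b (y - ((v : ℂ) * I) • e) (y - ((v : ℂ) * I) • e) with hS
    set s2 := ‖y‖ ^ 2 + v ^ 2 with hs2
    have hs20 : 0 ≤ s2 := by positivity
    obtain ⟨κ, hκ1, hκ2⟩ := exists_between hcon
    set τ := (κ - S) / (2 * (|κ| + s2 + 1)) with hτ
    have hden : 0 < 2 * (|κ| + s2 + 1) := by positivity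
    have hτ0 : 0 < τ := div_pos (by linarith) hden
    obtain ⟨r, hr, hE⟩ := hexp τ hτ0
    -- choose a small `s`
    obtain ⟨s, hs0, hs1, hsy, hsw, hsy2, hsw2⟩ : ∃ s : ℝ, 0 < s ∧ s ≤ 1 ∧ s * ‖y‖ < r ∧
        s * (|κ| + |v|) < r ∧ s * ‖y‖ < r0 / 2 ∧ s * (|κ| + |v|) < r0 / 2 := by
      set Q := ‖y‖ + |κ| + |v| + 1 with hQ
      have hQ0 : 0 < Q := by positivity
      refine ⟨min 1 (min r (r0 / 2) / Q / 2), lt_min one_pos (by positivity), min_le_left _ _,
        ?_, ?_, ?_, ?_⟩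
      all_goals
        have hmin : 0 < min r (r0 / 2) := lt_min hr (by linarith)
        have h1 : min 1 (min r (r0 / 2) / Q / 2) * Q < min r (r0 / 2) := by
          calc min 1 (min r (r0 / 2) / Q / 2) * Q ≤ min r (r0 / 2) / Q / 2 * Q :=
                mul_le_mul_of_nonneg_right (min_le_right _ _) hQ0.le
            _ = min r (r0 / 2) / 2 := by field_simp
            _ < _ := by linarith
        have h2 : 0 < min 1 (min r (r0 / 2) / Q / 2) := lt_min one_pos (by positivity)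
      · refine lt_of_lt_of_le (lt_of_le_of_lt (mul_le_mul_of_nonneg_left ?_ h2.le) h1) (min_le_left _ _)
        rw [hQ]; linarith [abs_nonneg κ, abs_nonneg v]
      · refine lt_of_lt_of_le (lt_of_le_of_lt (mul_le_mul_of_nonneg_left ?_ h2.le) h1) (min_le_left _ _)
        rw [hQ]; linarith [norm_nonneg y]
      · refine lt_of_lt_of_le (lt_of_le_of_lt (mul_le_mul_of_nonneg_left ?_ h2.le) h1) (min_le_right _ _)
        rw [hQ]; linarith [abs_nonneg κ, abs_nonneg v]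
      · refine lt_of_lt_of_le (lt_of_le_of_lt (mul_le_mul_of_nonneg_left ?_ h2.le) h1) (min_le_right _ _)
        rw [hQ]; linarith [norm_nonneg y]
    set w : ℂ := ⟨s ^ 2 * κ, s * v⟩ with hw
    have hwre : w.re = s ^ 2 * κ := rfl
    have hwim : w.im = s * v := rfl
    have hwn : ‖w‖ ≤ s * (|κ| + |v|) := by
      refine (Complex.norm_le_abs_re_add_abs_im w).trans ?_
      rw [hwre, hwim, abs_mul, abs_mul, abs_of_pos hs0, abs_of_pos (pow_pos hs0 2), mul_add]
      have : s ^ 2 * |κ| ≤ s * |κ| := by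
        apply mul_le_mul_of_nonneg_right _ (abs_nonneg _)
        nlinarith
      linarith
    have hyn : ‖(s : ℂ) • y‖ = s * ‖y‖ := by
      rw [norm_smul, Complex.norm_real, Real.norm_eq_abs, abs_of_pos hs0]
    have hyin : (inner ℂ e ((s : ℂ) • y) : ℂ) = 0 := by rw [inner_smul_right, hy, mul_zero]
    have hE1 := hE ((s : ℂ) • y) w hyin (by rw [hyn]; exact hsy) (lt_of_le_of_lt hwn hsw)
    have hscale : (s : ℂ) • y - ((w.im : ℂ) * I) • e = s • (y - ((v : ℂ) * I) • e) := by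
      have e3 : (((s * v : ℝ) : ℂ) * I) • e = (s : ℂ) • (((v : ℂ) * I) • e) := by
        rw [smul_smul]; push_cast; ring_nf
      rw [hwim, e3, ← smul_sub, Complex.coe_smul]
    have hbsc : b ((s : ℂ) • y - ((w.im : ℂ) * I) • e) ((s : ℂ) • y - ((w.im : ℂ) * I) • e)
        = s ^ 2 * S := by
      rw [hscale, map_smul, map_smul, smul_apply, smul_eq_mul, smul_eq_mul, hS]
      ring
    rw [hbsc, hyn, hwim, hwre] at hE1
    have hneg : ρ (((R : ℂ) - w) • e + (s : ℂ) • y) < 0 := by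
      have h1 := (abs_le.1 hE1).2
      have h2 : τ * |s ^ 2 * κ| + τ * ((s * ‖y‖) ^ 2 + (s * v) ^ 2) = s ^ 2 * (τ * (|κ| + s2)) := by
        rw [abs_mul, abs_of_pos (pow_pos hs0 2), hs2]; ring
      rw [h2] at h1
      have h3 : τ * (|κ| + s2) < κ - S := by
        rw [hτ, div_mul_eq_mul_div, div_lt_iff₀ hden]
        have : 0 < κ - S := by linarith
        nlinarith [abs_nonneg κ]
      have h4 : s ^ 2 * (τ * (|κ| + s2)) < s ^ 2 * (κ - S) :=
        mul_lt_mul_of_pos_left h3 (pow_pos hs0 2)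
      have h5 : ρ (((R : ℂ) - w) • e + (s : ℂ) • y) / c < 0 := by nlinarith
      by_contra hcc
      exact absurd h5 (not_lt.2 (div_nonneg (not_lt.1 hcc) hc.le))
    have hin := (hmem ((s : ℂ) • y) w (by rw [hyn]; exact hsy2) (lt_of_le_of_lt hwn hsw2)).2 hneg
    have h6 := hnD _ _ hyin hin
    rw [hyn, hwre, hwim] at h6
    rw [lt_div_iff₀ (by positivity)] at hκ2
    have h7 : s ^ 2 * s2 < s ^ 2 * (2 * R * κ) := by
      rw [hs2]; nlinarith [sq_nonneg (s ^ 2 * κ)]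
    have h8 : s2 < 2 * R * κ := lt_of_mul_lt_mul_left h7 (pow_pos hs0 2).le
    linarith
  refine ⟨b, hbs, hpos, ?_⟩
  intro σ hσ
  set K : ℝ := ‖b‖ with hK
  have hK0 : 0 ≤ K := ContinuousLinearMap.opNorm_nonneg b
  set τ := σ / (K + 1 + σ) with hτ
  have hden : 0 < K + 1 + σ := by positivity
  have hτ0 : 0 < τ := div_pos hσ hden
  have hτe : τ * (K + 1 + σ) = σ := div_mul_cancel₀ _ hden.ne'
  have hτ1 : τ < 1 := by rw [hτ, div_lt_one hden]; linarith
  obtain ⟨r, hr, hE⟩ := hexp τ hτ0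
  refine ⟨min r (r0 / 2), lt_min hr (by linarith), ?_⟩
  intro y w hy hyr hwr
  have hE1 := hE y w hy (lt_of_lt_of_le hyr (min_le_left _ _)) (lt_of_lt_of_le hwr (min_le_left _ _))
  have hM := hmem y w (lt_of_lt_of_le hyr (min_le_right _ _)) (lt_of_lt_of_le hwr (min_le_right _ _))
  have hS1 := hpos y w.im hy
  set S := b (y - ((w.im : ℂ) * I) • e) (y - ((w.im : ℂ) * I) • e) with hS
  set s2 := ‖y‖ ^ 2 + w.im ^ 2 with hs2
  have hs20 : 0 ≤ s2 := by positivity
  have hS0 : 0 ≤ S := le_trans (by positivity) hS1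
  have hSK : S ≤ K * s2 := by
    have h1 := b.le_opNorm₂ (y - ((w.im : ℂ) * I) • e) (y - ((w.im : ℂ) * I) • e)
    have h2 : ‖y - ((w.im : ℂ) * I) • e‖ ^ 2 = s2 := by
      have e1 : y - ((w.im : ℂ) * I) • e = (-((w.im : ℂ) * I)) • e + y := by rw [neg_smul]; abel
      rw [e1, nsq e y _ he hy, norm_neg, norm_mul, Complex.norm_I, mul_one, Complex.norm_real,
        Real.norm_eq_abs, sq_abs, hs2]
      ring
    rw [mul_assoc, ← sq, h2] at h1
    exact (le_abs_self _).trans h1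
  obtain ⟨hE2, hE3⟩ := abs_le.1 hE1
  have hτK : τ * S ≤ τ * (K * s2) := mul_le_mul_of_nonneg_left hSK hτ0.le
  have hτs : 0 ≤ τ * (σ * s2) := by positivity
  have hid : σ * s2 = τ * (K * s2) + τ * s2 + τ * (σ * s2) := by
    calc σ * s2 = (τ * (K + 1 + σ)) * s2 := by rw [hτe]
      _ = _ := by ring
  constructor
  · intro hz
    have hu := hnD y w hy hz
    have hu0 : 0 < w.re := by
      by_contra hcon
      push Not at hcon
      have : 0 ≤ R * (-w.re) := mul_nonneg hR.le (by linarith)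
      nlinarith [sq_nonneg w.re, sq_nonneg w.im, sq_nonneg ‖y‖]
    rw [abs_of_pos hu0] at hE2 hE3
    have hρn : ρ (((R : ℂ) - w) • e + y) / c < 0 := div_neg_of_neg_of_pos (hM.1 hz) hc
    by_cases hc2 : w.re ≤ S
    · have h3 : τ * w.re ≤ τ * S := mul_le_mul_of_nonneg_left hc2 hτ0.le
      linarith
    · push Not at hc2
      have : 0 ≤ σ * s2 := by positivity
      linarith
  · intro hlt
    rw [hM]
    have hu0 : 0 < w.re := lt_of_le_of_lt (by positivity) hlt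
    rw [abs_of_pos hu0] at hE2 hE3
    have h5 : ρ (((R : ℂ) - w) • e + y) / c < 0 := by
      have h6 : (1 - τ) * (S + σ * s2) < (1 - τ) * w.re :=
        mul_lt_mul_of_pos_left hlt (by linarith)
      linarith
    by_contra hcc
    exact absurd h5 (not_lt.2 (div_nonneg (not_lt.1 hcc) hc.le))

end Pool.Agent.W721.Ud.G1
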