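import Pool.Agent.W732.Ud.Stm

set_option autoImplicit false

open Metric Set Filter Topology Complex

namespace Pool.Agent.W721.Ud.Lim
open Pool.Agent.W732.Ud

theorem main : S_mt → S_lim := by
  intro hmt E E' _ _ _ _ _ _ D H U ψ G P hA N F₀ F h s hh hs hF0 hF X g₀ g M c hX hc hmap hg0 hg
    hg0M hgM hlow
  obtain ⟨n0, hn0⟩ := eventually_atTop.1 hmap
  have hs' : Tendsto (fun n => s (n + n0)) atTop atTop :=
    hs.tendsto_atTop.comp (tendsto_add_atTop_nat n0)
  have hsge : ∀ n, n0 ≤ s (n + n0) := fun n =>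
    le_trans (Nat.le_add_left n0 n) (hs.id_le (n + n0))
  have hmapn : ∀ n, MapsTo (ψ (s (n + n0))) (U (s (n + n0))) X := fun n => hn0 _ (hsge n)
  have hExh : Exh H (fun n => U (s (n + n0))) :=
    ⟨hA.exh.oH, fun n => hA.exh.oU _, fun n => hA.exh.sub _,
      fun K hK hKc => hs'.eventually (hA.exh.exh K hK hKc)⟩
  obtain ⟨t, Φ, ht, hΦd, hΦM, hΦc⟩ := hmt E' H (fun n => U (s (n + n0))) hExh N M
    (fun n i x => g i (ψ (s (n + n0)) x))
    (fun n i => (hg i).comp (hA.dψ _) (hmapn n))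
    (fun n i x hx => hgM i _ (hmapn n hx))
  set τ : ℕ → ℕ := fun n => t n + n0 with hτ
  have hτt : Tendsto τ atTop atTop := (tendsto_add_atTop_nat n0).comp ht.tendsto_atTop
  have hpt : ∀ x ∈ H, 4 * c ≤ ‖∑ i, h i x * Φ i x‖ := by
    intro x hx
    have hsing : ({x} : Set E') ⊆ H := singleton_subset_iff.2 hx
    have hev : ∀ᶠ n in atTop, x ∈ U (s (τ n)) := by
      have h1 := (hs.tendsto_atTop.comp hτt).eventually (hA.exh.exh {x} hsing isCompact_singleton)
      filter_upwards [h1] with n hn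
      exact hn rfl
    have hevX : ∀ᶠ n in atTop, ψ (s (τ n)) x ∈ X := by
      filter_upwards [hev] with n hn
      exact hmapn (t n) hn
    have l0 : Tendsto (fun n => F₀ (ψ (s (τ n)) x)) atTop (𝓝 0) := by
      have := (hF0 {x} hsing isCompact_singleton).tendsto_at (mem_singleton x)
      exact this.comp hτt
    have l1 : Tendsto (fun n => F₀ (ψ (s (τ n)) x) * g₀ (ψ (s (τ n)) x)) atTop (𝓝 0) := by
      rw [tendsto_zero_iff_norm_tendsto_zero] at l0 ⊢
      have l0' : Tendsto (fun n => ‖F₀ (ψ (s (τ n)) x)‖ * M) atTop (𝓝 0) := by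
        simpa using l0.mul_const M
      refine squeeze_zero' (Eventually.of_forall fun n => norm_nonneg _) ?_ l0'
      filter_upwards [hevX] with n hn
      rw [norm_mul]
      exact mul_le_mul_of_nonneg_left (hg0M _ hn) (norm_nonneg _)
    have l2 : ∀ i, Tendsto (fun n => F i (ψ (s (τ n)) x) * g i (ψ (s (τ n)) x)) atTop
        (𝓝 ((1 / 4) * (h i x * Φ i x))) := by
      intro i
      have a1 : Tendsto (fun n => 4 * F i (ψ (s (τ n)) x)) atTop (𝓝 (h i x)) := by
        have := (hF i {x} hsing isCompact_singleton).tendsto_at (mem_singleton x)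
        exact this.comp hτt
      have a2 : Tendsto (fun n => g i (ψ (s (τ n)) x)) atTop (𝓝 (Φ i x)) :=
        (hΦc i {x} hsing isCompact_singleton).tendsto_at (mem_singleton x)
      have a3 := (a1.mul a2).const_mul (1 / 4 : ℂ)
      refine a3.congr fun n => ?_
      ring
    have l3 : Tendsto (fun n => F₀ (ψ (s (τ n)) x) * g₀ (ψ (s (τ n)) x)
        + ∑ i, F i (ψ (s (τ n)) x) * g i (ψ (s (τ n)) x)) atTop
        (𝓝 (0 + ∑ i, (1 / 4) * (h i x * Φ i x))) :=
      l1.add (tendsto_finsetSum _ fun i _ => l2 i)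
    have l4 : c ≤ ‖(0 : ℂ) + ∑ i, (1 / 4) * (h i x * Φ i x)‖ := by
      refine ge_of_tendsto l3.norm ?_
      filter_upwards [hevX] with n hn
      exact hlow _ hn
    rw [zero_add, ← Finset.mul_sum, norm_mul] at l4
    have : ‖(1 / 4 : ℂ)‖ = 1 / 4 := by simp
    rw [this] at l4
    linarith
  have hS0 : ∀ x ∈ H, (∑ i, h i x * Φ i x) ≠ 0 := by
    intro x hx h0
    have := hpt x hx
    rw [h0, norm_zero] at this
    linarith
  refine ⟨fun i x => (∑ j, h j x * Φ j x)⁻¹ * Φ i x, ?_, ?_, ?_⟩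
  · intro i
    have d1 : DifferentiableOn ℂ (fun x => ∑ j, h j x * Φ j x) H := by
      refine DifferentiableOn.fun_sum fun j _ => (hh j).mul (hΦd j)
    exact (d1.inv hS0).mul (hΦd i)
  · intro i x hx
    have hM0 : 0 ≤ M := le_trans (norm_nonneg _) (hΦM i x hx)
    rw [norm_mul, norm_inv, mul_comm, ← div_eq_mul_inv]
    exact div_le_div₀ hM0 (hΦM i x hx) (by linarith) (hpt x hx)
  · intro x hx
    have : ∑ i, h i x * ((∑ j, h j x * Φ j x)⁻¹ * Φ i x)
        = (∑ j, h j x * Φ j x)⁻¹ * ∑ i, h i x * Φ i x := by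
      rw [Finset.mul_sum]
      exact Finset.sum_congr rfl fun i _ => by ring
    rw [this]
    exact inv_mul_cancel₀ (hS0 x hx)

end Pool.Agent.W721.Ud.Lim
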